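import Pool.Agent.H90.WC.Inv

/-!
Some frame is not crossed by any other frame (problem MP_90715c_gt, module D).
-/

open Matrix Set Filter Topology

namespace Pool.Agent.H90.WC

namespace ND

/-- `z ↦ -1 / (c² z)`. -/
noncomputable def wc (c : ℂ) (hc : c ≠ 0) : G :=
  ⟨!![0, -c⁻¹; c, 0], by rw [Matrix.det_fin_two_of]; simp [hc]⟩

@[simp] lemma wc_00 (c : ℂ) (hc : c ≠ 0) : wc c hc 0 0 = 0 := rfl
@[simp] lemma wc_01 (c : ℂ) (hc : c ≠ 0) : wc c hc 0 1 = -c⁻¹ := rfl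
@[simp] lemma wc_10 (c : ℂ) (hc : c ≠ 0) : wc c hc 1 0 = c := rfl
@[simp] lemma wc_11 (c : ℂ) (hc : c ≠ 0) : wc c hc 1 1 = 0 := rfl

/-- `z ↦ z + x`. -/
noncomputable def nx (x : ℝ) : G := bR 1 x one_ne_zero

@[simp] lemma nx_00 (x : ℝ) : nx x 0 0 = 1 := by simp [nx]
@[simp] lemma nx_01 (x : ℝ) : nx x 0 1 = x := by simp [nx]
@[simp] lemma nx_10 (x : ℝ) : nx x 1 0 = 0 := by simp [nx]
@[simp] lemma nx_11 (x : ℝ) : nx x 1 1 = 1 := by simp [nx]

lemma conj_cases {c : ℂ} (h : (c ^ 2).im = 0) :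
    (starRingEnd ℂ) c = c ∨ (starRingEnd ℂ) c = -c := by
  rw [pow_two, Complex.mul_im] at h
  have h1 : c.re * c.im = 0 := by linarith
  rcases mul_eq_zero.1 h1 with h2 | h2
  · right
    apply Complex.ext <;> simp [h2]
  · left
    apply Complex.ext <;> simp [h2]

lemma abs_lt_of_im {z : ℂ} (hz : z ≠ 0) (h : (z ^ 2).im ≠ 0) :
    |((starRingEnd ℂ) z * z⁻¹).re| < 1 := by
  have hn : 0 < Complex.normSq z := Complex.normSq_pos.2 hz
  have h1 : (starRingEnd ℂ) z * z⁻¹ = ((starRingEnd ℂ) z) ^ 2 * ((Complex.normSq z)⁻¹ : ℝ) := by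
    rw [Complex.inv_def]; ring
  rw [pow_two, Complex.mul_im] at h
  have h2 : z.re * z.im ≠ 0 := by
    intro h0; apply h; linarith
  rw [h1, Complex.re_mul_ofReal, ← div_eq_mul_inv, abs_div, abs_of_pos hn, div_lt_one hn, pow_two,
    Complex.mul_re]
  simp only [Complex.conj_re, Complex.conj_im]
  rw [Complex.normSq_apply, abs_lt]
  have h3 : z.re ≠ 0 := left_ne_zero_of_mul h2
  have h4 : z.im ≠ 0 := right_ne_zero_of_mul h2
  have h5 : 0 < z.re * z.re := mul_self_pos.2 h3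
  have h6 : 0 < z.im * z.im := mul_self_pos.2 h4
  constructor <;> nlinarith

lemma Bf_wc {c : ℂ} (hc : c ≠ 0) : Bf (wc c hc) = ((starRingEnd ℂ) c * c⁻¹).re := by
  unfold Bf
  simp only [wc_00, wc_01, wc_10, wc_11]
  congr 1
  ring

lemma im_ne_of_Bf {c : ℂ} (hc : c ≠ 0) (h : |Bf (wc c hc)| < 1) : (c ^ 2).im ≠ 0 := by
  intro h0
  rw [Bf_wc] at h
  rcases conj_cases h0 with h1 | h1
  · rw [h1, mul_inv_cancel₀ hc] at h
    simp at h
  · rw [h1, neg_mul, mul_inv_cancel₀ hc] at h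
    simp at h

/-- The form of a crossing. -/
lemma cross_eq {g : G} (h : CrossForm g) :
    g = nx (g 0 0 / g 1 0).re * wc (g 1 0) h.1 * nx (g 1 1 / g 1 0).re := by
  obtain ⟨h0, h1, h2⟩ := h
  have e1 : (((g 0 0 / g 1 0).re : ℝ) : ℂ) = g 0 0 / g 1 0 := by
    apply Complex.ext <;> simp [h1]
  have e2 : (((g 1 1 / g 1 0).re : ℝ) : ℂ) = g 1 1 / g 1 0 := by
    apply Complex.ext <;> simp [h2]
  have hd := det_eq g
  apply ext_G
  · rw [mul_00, mul_00, mul_01]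
    simp only [nx_00, nx_01, nx_10, wc_00, wc_01, wc_10, wc_11, e1]
    field_simp
    ring
  · rw [mul_01, mul_00, mul_01]
    simp only [nx_00, nx_01, nx_11, wc_00, wc_01, wc_10, wc_11, e1, e2]
    field_simp
    linear_combination -hd
  · rw [mul_10, mul_10, mul_11]
    simp only [nx_00, nx_10, nx_11, wc_00, wc_10, wc_11]
    ring
  · rw [mul_11, mul_10, mul_11]
    simp only [nx_01, nx_10, nx_11, wc_00, wc_01, wc_10, wc_11, e2]
    field_simp
    ring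

/-- Zooming in at the point `x` of the circle of `q`: there is a crossing at this point. -/
lemma zoom {Γ : Subgroup G} (hcoc : ∃ C : Set G, IsCompact C ∧ ∀ g : G, ∃ γ ∈ Γ, γ * g ∈ C)
    {S : Set G} (hS : Inv Γ S)
    (hx : ∀ q ∈ S, ∀ q' ∈ S, |Bf (q⁻¹ * q')| < 1 → CrossForm (q⁻¹ * q'))
    (hcr : ∀ q ∈ S, ∃ q' ∈ S, |Bf (q⁻¹ * q')| < 1) {q : G} (hq : q ∈ S) (x : ℝ) :
    ∃ (c : ℂ) (hc : c ≠ 0), (c ^ 2).im ≠ 0 ∧ q * (nx x * wc c hc) ∈ S := by
  obtain ⟨C, hC, hCG⟩ := hcoc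
  -- the scales
  set a : ℕ → ℝ := fun n => 1 / ((n : ℝ) + 1) with ha
  have ha0 : ∀ n, a n ≠ 0 := fun n => by simp only [ha]; positivity
  have hat : Tendsto a atTop (𝓝 0) := tendsto_one_div_add_atTop_nhds_zero_nat
  choose γ hγ hγC using fun n => hCG (q * nx x * bR (a n) 0 (ha0 n))
  set Q : ℕ → G := fun n => γ n * (q * nx x * bR (a n) 0 (ha0 n)) with hQ
  have hQS : ∀ n, Q n ∈ S := fun n =>
    hS.left _ (hγ n) _ (hS.right _ (hS.right _ hq 1 x one_ne_zero) _ _ _)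
  set U : Ultrafilter ℕ := hyperfilter ℕ with hU
  have hUat : (U : Filter ℕ) ≤ atTop := by
    rw [← Nat.cofinite_eq_atTop]; exact hyperfilter_le_cofinite
  obtain ⟨q2, -, hq2⟩ := hC.ultrafilter_le_nhds (U.map Q) (by
    rw [Ultrafilter.coe_map, Filter.le_principal_iff, Filter.mem_map]
    exact Filter.univ_mem' hγC)
  have hQt : Tendsto Q U (𝓝 q2) := hq2
  have hq2S : q2 ∈ S := hS.closed.mem_of_tendsto hQt (Eventually.of_forall hQS)
  obtain ⟨q3, hq3, hB⟩ := hcr q2 hq2S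
  set g : G := q2⁻¹ * q3 with hg
  have hgc : CrossForm g := hx _ hq2S _ hq3 hB
  have hGt : Tendsto (fun n => (Q n)⁻¹ * q3) U (𝓝 g) := hQt.inv.mul_const q3
  have hBt : ∀ᶠ n in (U : Filter ℕ), |Bf ((Q n)⁻¹ * q3)| < 1 := by
    have h1 : Tendsto (fun n => |Bf ((Q n)⁻¹ * q3)|) U (𝓝 |Bf g|) :=
      ((continuous_Bf.tendsto g).comp hGt).abs
    exact h1.eventually (gt_mem_nhds hB)
  have hce : ∀ᶠ n in (U : Filter ℕ), CrossForm ((Q n)⁻¹ * q3) :=
    hBt.mono fun n hn => hx _ (hQS n) _ hq3 hn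
  obtain ⟨hc0, hc1, hc2⟩ := hgc
  -- entries
  have hG : ∀ i j, Tendsto (fun n => ((Q n)⁻¹ * q3) i j) U (𝓝 (g i j)) := fun i j =>
    (tendsto_iff.1 hGt) i j
  set y : ℕ → ℝ := fun n => (((Q n)⁻¹ * q3) 1 1 / ((Q n)⁻¹ * q3) 1 0).re with hy
  have hyt : Tendsto (fun n => ((y n : ℝ) : ℂ)) U (𝓝 (((g 1 1 / g 1 0).re : ℝ) : ℂ)) := by
    refine (Complex.continuous_ofReal.tendsto _).comp ?_
    exact (Complex.continuous_re.tendsto _).comp ((hG 1 1).div (hG 1 0) hc0)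
  have e2 : (((g 1 1 / g 1 0).re : ℝ) : ℂ) = g 1 1 / g 1 0 := by
    apply Complex.ext <;> simp [hc2]
  rw [e2] at hyt
  have hatc : Tendsto (fun n => ((a n : ℝ) : ℂ)) U (𝓝 0) := by
    have h1 : Tendsto (fun n => ((a n : ℝ) : ℂ)) U (𝓝 ((0 : ℝ) : ℂ)) :=
      (Complex.continuous_ofReal.tendsto 0).comp (hat.mono_left hUat)
    rwa [Complex.ofReal_zero] at h1
  set P : ℕ → G := fun n =>
    bR (a n) 0 (ha0 n) * (((Q n)⁻¹ * q3) * nx (-(y n))) * bR (a n) 0 (ha0 n) with hP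
  have hPS : ∀ n, q * (nx x * P n) ∈ S := by
    intro n
    have h1 : q * (nx x * P n) = (γ n)⁻¹ * ((q3 * nx (-(y n))) * bR (a n) 0 (ha0 n)) := by
      simp only [hP, hQ]
      group
    rw [h1]
    exact hS.left _ (Γ.inv_mem (hγ n)) _ (hS.right _ (hS.right _ hq3 1 _ one_ne_zero) _ _ _)
  have hPt : Tendsto P U (𝓝 (wc (g 1 0) hc0)) := by
    rw [tendsto_iff]
    have hd := det_eq g
    intro i j
    fin_cases i <;> fin_cases j
    · have h1 : (fun n => P n 0 0) = fun n => (a n : ℂ) * ((Q n)⁻¹ * q3) 0 0 * (a n : ℂ) := by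
        funext n
        simp only [hP]
        rw [mul_00, mul_00, mul_00]
        simp
      have h2 : Tendsto (fun n => (a n : ℂ) * ((Q n)⁻¹ * q3) 0 0 * (a n : ℂ)) U (𝓝 (0 * g 0 0 * 0)) :=
        (hatc.mul (hG 0 0)).mul hatc
      rw [mul_zero] at h2
      show Tendsto (fun n => P n 0 0) U (𝓝 0)
      rw [h1]; exact h2
    · have h1 : (fun n => P n 0 1) = fun n =>
          ((Q n)⁻¹ * q3) 0 1 - ((Q n)⁻¹ * q3) 0 0 * ((y n : ℝ) : ℂ) := by
        funext n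
        have ha1 : ((a n : ℝ) : ℂ) ≠ 0 := by exact_mod_cast ha0 n
        simp only [hP]
        rw [mul_01, mul_00, mul_01, mul_01, mul_00]
        simp only [bR_00, bR_01, bR_11, nx_00, nx_01, nx_11, nx_10]
        push_cast
        field_simp
        ring
      have h2 : Tendsto (fun n => ((Q n)⁻¹ * q3) 0 1 - ((Q n)⁻¹ * q3) 0 0 * ((y n : ℝ) : ℂ)) U
          (𝓝 (g 0 1 - g 0 0 * (g 1 1 / g 1 0))) := (hG 0 1).sub ((hG 0 0).mul hyt)
      have h3 : g 0 1 - g 0 0 * (g 1 1 / g 1 0) = -(g 1 0)⁻¹ := by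
        field_simp
        linear_combination -hd
      show Tendsto (fun n => P n 0 1) U (𝓝 (-(g 1 0)⁻¹))
      rw [h1, ← h3]; exact h2
    · have h1 : (fun n => P n 1 0) = fun n => ((Q n)⁻¹ * q3) 1 0 := by
        funext n
        have ha1 : ((a n : ℝ) : ℂ) ≠ 0 := by exact_mod_cast ha0 n
        simp only [hP]
        rw [mul_10, mul_10, mul_10]
        simp only [bR_00, bR_10, bR_11, nx_00, nx_01, nx_11, nx_10]
        field_simp
        ring
      show Tendsto (fun n => P n 1 0) U (𝓝 (g 1 0))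
      rw [h1]; exact hG 1 0
    · show Tendsto (fun n => P n 1 1) U (𝓝 0)
      refine tendsto_const_nhds.congr' ?_
      filter_upwards [hce] with n hn
      obtain ⟨k0, k1, k2⟩ := hn
      have e3 : ((y n : ℝ) : ℂ) = ((Q n)⁻¹ * q3) 1 1 / ((Q n)⁻¹ * q3) 1 0 := by
        apply Complex.ext
        · simp [hy]
        · rw [k2]; simp
      simp only [hP]
      rw [mul_11, mul_11, mul_10, mul_11]
      simp only [bR_00, bR_01, bR_10, bR_11, nx_00, nx_01, nx_11, nx_10]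
      push_cast
      rw [e3]
      field_simp
      ring
  refine ⟨g 1 0, hc0, ?_, ?_⟩
  · apply im_ne_of_Bf hc0
    have h1 := cross_eq (g := g) ⟨hc0, hc1, hc2⟩
    have h2 : Bf g = Bf (wc (g 1 0) hc0) := by
      conv_lhs => rw [h1]
      rw [nx, nx, Bf_real_right (isReal_bR _ _ _), Bf_real_left (isReal_bR _ _ _)]
    rw [← h2]; exact hB
  · have h1 : Tendsto (fun n => q * (nx x * P n)) U (𝓝 (q * (nx x * wc (g 1 0) hc0))) :=
      (hPt.const_mul (nx x)).const_mul q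
    exact hS.closed.mem_of_tendsto h1 (Eventually.of_forall hPS)

/-- Two crossings of the same circle are parallel. -/
lemma par {S : Set G}
    (hx : ∀ q ∈ S, ∀ q' ∈ S, |Bf (q⁻¹ * q')| < 1 → CrossForm (q⁻¹ * q')) {q : G} {x x' : ℝ}
    {c c' : ℂ} (hc : c ≠ 0) (hc' : c' ≠ 0) (h : q * (nx x * wc c hc) ∈ S)
    (h' : q * (nx x' * wc c' hc') ∈ S) (hi : (c ^ 2).im ≠ 0) : ((c' / c) ^ 2).im = 0 := by
  by_contra hne
  set g : G := (q * (nx x * wc c hc))⁻¹ * (q * (nx x' * wc c' hc')) with hg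
  have hgi : g = (nx x * wc c hc)⁻¹ * (nx x' * wc c' hc') := by
    rw [hg]; group
  have g00 : g 0 0 = c' / c := by
    rw [hgi, mul_00, inv_00, inv_01]
    simp only [mul_00, mul_01, mul_10, mul_11, nx_00, nx_01, nx_10, nx_11, wc_00, wc_01, wc_10,
      wc_11]
    field_simp
    ring
  have g01 : g 0 1 = 0 := by
    rw [hgi, mul_01, inv_00, inv_01]
    simp only [mul_00, mul_01, mul_10, mul_11, nx_00, nx_01, nx_10, nx_11, wc_00, wc_01, wc_10,
      wc_11]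
    field_simp
    ring
  have g10 : g 1 0 = -((x' - x) * c * c') := by
    rw [hgi, mul_10, inv_10, inv_11]
    simp only [mul_00, mul_01, mul_10, mul_11, nx_00, nx_01, nx_10, nx_11, wc_00, wc_01, wc_10,
      wc_11]
    ring
  have g11 : g 1 1 = (c' / c)⁻¹ := by
    rw [hgi, mul_11, inv_10, inv_11]
    simp only [mul_00, mul_01, mul_10, mul_11, nx_00, nx_01, nx_10, nx_11, wc_00, wc_01, wc_10,
      wc_11]
    field_simp
    ring
  have hB : |Bf g| < 1 := by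
    unfold Bf
    rw [g00, g01, g11, zero_mul, sub_zero]
    exact abs_lt_of_im (div_ne_zero hc' hc) hne
  obtain ⟨k0, k1, -⟩ := hx _ h _ h' hB
  rw [← hg] at k0 k1
  set t : ℝ := (g 0 0 / g 1 0).re with ht
  have e1 : ((t : ℝ) : ℂ) = g 0 0 / g 1 0 := by
    apply Complex.ext
    · simp [ht]
    · rw [k1]; simp
  rw [g10] at k0
  have k2 : ((x' : ℂ) - x) ≠ 0 := by
    intro h0; apply k0; rw [h0]; ring
  have k3 : x' - x ≠ 0 := by
    intro h0; apply k2
    rw [← Complex.ofReal_sub, h0, Complex.ofReal_zero]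
  have e2 : ((t * (x' - x) : ℝ) : ℂ) * c ^ 2 = ((-1 : ℝ) : ℂ) := by
    push_cast
    rw [e1, g00, g10]
    field_simp
  have e3 := congrArg Complex.im e2
  rw [Complex.im_ofReal_mul, Complex.ofReal_im] at e3
  have e4 : t ≠ 0 := by
    intro h0
    rw [h0, zero_mul, Complex.ofReal_zero, zero_mul] at e2
    norm_num at e2
  exact hi ((mul_eq_zero.1 e3).resolve_left (mul_ne_zero e4 k3))

lemma nx_zero : nx 0 = 1 := by
  apply ext_G <;> simp

/-- The sign. -/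
lemma ratio_cases {z c : ℂ} (hc : c ≠ 0) (h : ((z / c) ^ 2).im = 0) :
    ∃ ε : ℝ, (ε = 1 ∨ ε = -1) ∧
      (starRingEnd ℂ) z * c = (ε : ℂ) * (z * (starRingEnd ℂ) c) := by
  have hc' : (starRingEnd ℂ) c ≠ 0 := (map_ne_zero _).2 hc
  rcases conj_cases h with h1 | h1
  · refine ⟨1, Or.inl rfl, ?_⟩
    rw [map_div₀] at h1
    field_simp at h1
    push_cast
    linear_combination h1
  · refine ⟨-1, Or.inr rfl, ?_⟩
    rw [map_div₀] at h1
    field_simp at h1
    push_cast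
    linear_combination h1

end ND

open ND in
/-- There is a frame which is not crossed by any other frame. -/
theorem exists_noncross {Γ : Subgroup G}
    (hcoc : ∃ C : Set G, IsCompact C ∧ ∀ g : G, ∃ γ ∈ Γ, γ * g ∈ C)
    {S : Set G} (hS : Inv Γ S)
    (hx : ∀ q ∈ S, ∀ q' ∈ S, |Bf (q⁻¹ * q')| < 1 → CrossForm (q⁻¹ * q')) :
    ∃ q ∈ S, ∀ q' ∈ S, 1 ≤ |Bf (q⁻¹ * q')| := by
  by_contra! hno
  obtain ⟨q, hq⟩ := hS.ne
  obtain ⟨c, hc, hci, hqc⟩ := zoom hcoc hS hx hno hq 0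
  have hqc1 : q * wc c hc ∈ S := by
    rw [nx_zero, one_mul] at hqc; exact hqc
  obtain ⟨d, hd, hdi, hqd⟩ := zoom hcoc hS hx hno hqc1 1
  have hneg : q * wc c hc * (nx 0 * wc c hc) ∈ S := by
    have h1 : q * wc c hc * (nx 0 * wc c hc) = q * bR (-1) 0 (by norm_num) := by
      rw [nx_zero, one_mul, mul_assoc]
      congr 1
      apply ext_G
      · rw [mul_00]; simp [hc]
      · rw [mul_01]; simp
      · rw [mul_10]; simp
      · rw [mul_11]; simp [hc]
    rw [h1]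
    exact hS.right _ hq _ _ _
  have hρ : ((d / c) ^ 2).im = 0 := par hx hc hd hneg hqd hci
  obtain ⟨ε₁, hε₁, hε₁'⟩ := ratio_cases hc hρ
  -- the choice of `y`
  have hB0 : |((starRingEnd ℂ) c * c⁻¹).re| < 1 := abs_lt_of_im hc hci
  set B : ℝ := ((starRingEnd ℂ) c * c⁻¹).re with hBdef
  set A : ℝ := ((starRingEnd ℂ) c ^ 3 * c⁻¹ - (starRingEnd ℂ) c * c).re with hAdef
  obtain ⟨y, hy0, hy⟩ : ∃ y : ℝ, y ≠ 0 ∧ |A * y + B| < 1 := by
    have h1 : Tendsto (fun y : ℝ => |A * y + B|) (𝓝[≠] 0) (𝓝 |A * 0 + B|) := by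
      apply Tendsto.mono_left _ nhdsWithin_le_nhds
      exact Continuous.tendsto (by fun_prop) 0
    rw [mul_zero, zero_add] at h1
    have h2 := (h1.eventually (gt_mem_nhds hB0)).and self_mem_nhdsWithin
    obtain ⟨y, hy1, hy2⟩ := h2.exists
    exact ⟨y, hy2, hy1⟩
  obtain ⟨e, he, hei, hqe⟩ := zoom hcoc hS hx hno hq y
  have hσ : ((e / c) ^ 2).im = 0 := par hx hc he hqc hqe hci
  obtain ⟨ε₂, hε₂, hε₂'⟩ := ratio_cases hc hσ
  set g : G := (q * wc c hc * (nx 1 * wc d hd))⁻¹ * (q * (nx y * wc e he)) with hg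
  have hgi : g = (wc c hc * (nx 1 * wc d hd))⁻¹ * (nx y * wc e he) := by
    rw [hg]; group
  have g00 : g 0 0 = -(y * c * e / d) := by
    rw [hgi, mul_00, inv_00, inv_01]
    simp only [mul_00, mul_01, mul_10, mul_11, nx_00, nx_01, nx_10, nx_11, wc_00, wc_01, wc_10,
      wc_11]
    field_simp
    ring
  have g01 : g 0 1 = c / (d * e) := by
    rw [hgi, mul_01, inv_00, inv_01]
    simp only [mul_00, mul_01, mul_10, mul_11, nx_00, nx_01, nx_10, nx_11, wc_00, wc_01, wc_10,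
      wc_11]
    field_simp
    ring
  have g10 : g 1 0 = -(d * e * (c * y + c⁻¹)) := by
    rw [hgi, mul_10, inv_10, inv_11]
    simp only [mul_00, mul_01, mul_10, mul_11, nx_00, nx_01, nx_10, nx_11, wc_00, wc_01, wc_10,
      wc_11]
    push_cast
    field_simp
    ring
  have g11 : g 1 1 = c * d / e := by
    rw [hgi, mul_11, inv_10, inv_11]
    simp only [mul_00, mul_01, mul_10, mul_11, nx_00, nx_01, nx_10, nx_11, wc_00, wc_01, wc_10,
      wc_11]
    push_cast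
    field_simp
    ring
  have hcc : (starRingEnd ℂ) c ≠ 0 := (map_ne_zero _).2 hc
  have hdd : (starRingEnd ℂ) d ≠ 0 := (map_ne_zero _).2 hd
  have hee : (starRingEnd ℂ) e ≠ 0 := (map_ne_zero _).2 he
  have hBg : Bf g = ε₁ * ε₂ * (A * y + B) := by
    have h1 : (starRingEnd ℂ) (g 0 0) * g 1 1 - g 0 1 * (starRingEnd ℂ) (g 1 0)
        = ((ε₁ * ε₂ : ℝ) : ℂ) * (((starRingEnd ℂ) c ^ 3 * c⁻¹ - (starRingEnd ℂ) c * c) * (y : ℂ)
          + (starRingEnd ℂ) c * c⁻¹) := by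
      have hs1 : (ε₁ : ℂ) ^ 2 = 1 := by
        rcases hε₁ with h | h <;> rw [h] <;> norm_num
      have k1 : (starRingEnd ℂ) d = (ε₁ : ℂ) * (d * (starRingEnd ℂ) c) / c := by
        rw [eq_div_iff hc]; exact hε₁'
      have k2 : (starRingEnd ℂ) e = (ε₂ : ℂ) * (e * (starRingEnd ℂ) c) / c := by
        rw [eq_div_iff hc]; exact hε₂'
      have hε0 : (ε₁ : ℂ) ≠ 0 := by
        rcases hε₁ with h | h <;> rw [h] <;> norm_num
      rw [g00, g01, g10, g11]
      simp only [map_neg, map_div₀, map_mul, map_add, Complex.conj_ofReal, map_inv₀]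
      rw [k1, k2]
      push_cast
      field_simp
      rw [hs1]
      ring
    unfold Bf
    rw [h1, Complex.re_ofReal_mul, Complex.add_re, Complex.re_mul_ofReal]
  have hBl : |Bf g| < 1 := by
    rw [hBg, abs_mul, abs_mul]
    have h1 : |ε₁| = 1 := by rcases hε₁ with h | h <;> rw [h] <;> norm_num
    have h2 : |ε₂| = 1 := by rcases hε₂ with h | h <;> rw [h] <;> norm_num
    rw [h1, h2, one_mul, one_mul]
    exact hy
  obtain ⟨k0, k1, -⟩ := hx _ hqd _ hqe hBl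
  rw [← hg] at k0 k1
  set t : ℝ := (g 0 0 / g 1 0).re with ht
  have e1 : ((t : ℝ) : ℂ) = g 0 0 / g 1 0 := by
    apply Complex.ext
    · simp [ht]
    · rw [k1]; simp
  set r : ℝ := ((d / c) ^ 2).re with hr
  have e2 : ((r : ℝ) : ℂ) = (d / c) ^ 2 := by
    apply Complex.ext
    · simp [hr]
    · rw [hρ]; simp
  rw [g10] at k0
  have k2 : c * y + c⁻¹ ≠ 0 := by
    intro h0; apply k0; rw [h0]; ring
  have k3 : c ^ 2 * y + 1 ≠ 0 := by
    intro h0; apply k2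
    field_simp
    linear_combination h0
  have hyc : (y : ℂ) ≠ 0 := by exact_mod_cast hy0
  have e3 : ((t * r : ℝ) : ℂ) * (c ^ 2 * y + 1) = ((y : ℝ) : ℂ) := by
    push_cast
    rw [e1, e2, g00, g10]
    have k4 : c * y + c⁻¹ = (c ^ 2 * y + 1) / c := by
      field_simp
    rw [k4]
    have k5 : (y : ℂ) * c ^ 2 + 1 ≠ 0 := by rw [mul_comm]; exact k3
    field_simp
  have e4 := congrArg Complex.im e3
  rw [Complex.im_ofReal_mul, Complex.ofReal_im, Complex.add_im, Complex.im_mul_ofReal,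
    Complex.one_im, add_zero] at e4
  have e5 : t * r ≠ 0 := by
    intro h0
    rw [h0, Complex.ofReal_zero, zero_mul] at e3
    exact hyc e3.symm
  have e6 := (mul_eq_zero.1 e4).resolve_left e5
  exact hci ((mul_eq_zero.1 e6).resolve_right hy0)

end Pool.Agent.H90.WC
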