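import Pool.Agent.H90.WC.Mink

/-!
Minkowski space: planes which do not cross do not fill hyperbolic space
(problem MP_90715c_gt, module E1).
-/

open Set Filter Topology

namespace Pool.Agent.H90.WC

namespace E1

lemma D_comm (u v : V) : D u v = D v u := by
  unfold D; rw [real_inner_comm]; ring

lemma D_add_left (u v w : V) : D (u + v) w = D u w + D v w := by
  unfold D; rw [Prod.fst_add, Prod.snd_add, inner_add_left]; ring

lemma D_add_right (u v w : V) : D u (v + w) = D u v + D u w := by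
  unfold D; rw [Prod.fst_add, Prod.snd_add, inner_add_right]; ring

lemma D_smul_left (c : ℝ) (u w : V) : D (c • u) w = c * D u w := by
  unfold D
  rw [Prod.smul_fst, Prod.smul_snd, real_inner_smul_left, smul_eq_mul]; ring

lemma D_smul_right (c : ℝ) (u w : V) : D u (c • w) = c * D u w := by
  unfold D
  rw [Prod.smul_fst, Prod.smul_snd, real_inner_smul_right, smul_eq_mul]; ring

lemma D_neg_left (u w : V) : D (-u) w = -D u w := by
  have h := D_smul_left (-1) u w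
  rw [neg_one_smul] at h; rw [h]; ring

lemma D_neg_right (u w : V) : D u (-w) = -D u w := by
  have h := D_smul_right (-1) u w
  rw [neg_one_smul] at h; rw [h]; ring

lemma D_sub_left (u v w : V) : D (u - v) w = D u w - D v w := by
  rw [sub_eq_add_neg, D_add_left, D_neg_left]; ring

lemma D_sub_right (u v w : V) : D u (v - w) = D u v - D u w := by
  rw [sub_eq_add_neg, D_add_right, D_neg_right]; ring

lemma D_self (u : V) : D u u = u.1 ^ 2 - ‖u.2‖ ^ 2 := by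
  unfold D; rw [real_inner_self_eq_norm_sq]; ring

lemma D_continuous : Continuous fun p : V × V => D p.1 p.2 := by
  unfold D
  fun_prop

lemma D_continuous_left (w : V) : Continuous fun u : V => D u w := by
  unfold D
  fun_prop

lemma D_continuous_right (w : V) : Continuous fun u : V => D w u := by
  unfold D
  fun_prop

/-- A vector orthogonal to a timelike vector with nonnegative square vanishes. -/
lemma eq_zero_of_orth {X v : V} (hX : 0 < D X X) (hv : D v X = 0) (h : 0 ≤ D v v) : v = 0 := by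
  rw [D_self] at hX h
  have h1 : v.1 * X.1 = inner ℝ v.2 X.2 := by
    unfold D at hv; linarith
  have h2 : |(inner ℝ v.2 X.2 : ℝ)| ≤ ‖v.2‖ * ‖X.2‖ := abs_real_inner_le_norm _ _
  have h3 : (v.1 * X.1) ^ 2 ≤ (‖v.2‖ * ‖X.2‖) ^ 2 := by
    rw [h1]
    exact sq_le_sq' (by linarith [(abs_le.1 h2).1]) (abs_le.1 h2).2
  have h4 : v.1 ^ 2 * (X.1 ^ 2 - ‖X.2‖ ^ 2) ≤ 0 := by
    nlinarith [sq_nonneg ‖X.2‖, sq_nonneg v.1]
  have h5 : v.1 ^ 2 = 0 := by
    have h6 := sq_nonneg v.1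
    by_contra hne
    have h7 : 0 < v.1 ^ 2 := lt_of_le_of_ne h6 (Ne.symm hne)
    nlinarith
  have h8 : ‖v.2‖ ^ 2 = 0 := le_antisymm (by linarith) (sq_nonneg _)
  ext1
  · simpa using h5
  · simpa using h8

lemma nonpos_of_orth {X v : V} (hX : 0 < D X X) (hv : D v X = 0) : D v v ≤ 0 := by
  by_contra h
  push Not at h
  have h1 := eq_zero_of_orth hX hv h.le
  rw [h1] at h
  unfold D at h
  simp at h

/-- Two unit normals of planes which do not cross and have a common point. -/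
lemma eq_or_neg {q q' X : V} (hq : D q q = -1) (hq' : D q' q' = -1) (hn : 1 ≤ |D q q'|)
    (hX : 0 < D X X) (h : D q X = 0) (h' : D q' X = 0) : q' = q ∨ q' = -q := by
  rcases le_abs.1 hn with h1 | h1
  · right
    have h2 : q + q' = 0 := by
      refine eq_zero_of_orth hX (by rw [D_add_left, h, h']; ring) ?_
      rw [D_add_left, D_add_right, D_add_right, hq, hq', D_comm q' q]; linarith
    exact eq_neg_of_add_eq_zero_right h2
  · left
    have h2 : q - q' = 0 := by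
      refine eq_zero_of_orth hX (by rw [D_sub_left, h, h']; ring) ?_
      rw [D_sub_left, D_sub_right, D_sub_right, hq, hq', D_comm q' q]; linarith
    exact (sub_eq_zero.1 h2).symm

lemma H3_pos {X : V} (h : X ∈ H3) : 0 < D X X := by rw [h.1]; norm_num

lemma H3_norm_lt {X : V} (h : X ∈ H3) : ‖X.2‖ < X.1 := by
  have h1 := h.1
  rw [D_self] at h1
  nlinarith [norm_nonneg X.2, h.2, abs_nonneg (X.1)]

/-- Causal vectors. -/
lemma causal {u : V} (h : 0 ≤ D u u) : u ∈ Cp ∨ -u ∈ Cp := by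
  rw [D_self] at h
  have h1 : ‖u.2‖ ≤ |u.1| := by
    refine le_of_sq_le_sq ?_ (abs_nonneg _)
    rw [sq_abs]; linarith
  rcases le_abs.1 h1 with h2 | h2
  · exact Or.inl h2
  · right
    show ‖(-u).2‖ ≤ (-u).1
    simpa using h2

lemma Cp_nonneg {u v : V} (hu : u ∈ Cp) (hv : v ∈ Cp) : 0 ≤ D u v := by
  have hu' : ‖u.2‖ ≤ u.1 := hu
  have hv' : ‖v.2‖ ≤ v.1 := hv
  have h2 : |(inner ℝ u.2 v.2 : ℝ)| ≤ ‖u.2‖ * ‖v.2‖ := abs_real_inner_le_norm _ _
  have h3 : ‖u.2‖ * ‖v.2‖ ≤ u.1 * v.1 :=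
    mul_le_mul hu' hv' (norm_nonneg _) ((norm_nonneg _).trans hu')
  have h4 := (abs_le.1 h2).2
  unfold D; linarith

lemma H3_sub_Cp {X : V} (h : X ∈ H3) : X ∈ Cp := (H3_norm_lt h).le

lemma Cp_pos {u X : V} (hu : u ∈ Cp) (hu0 : u ≠ 0) (hX : X ∈ H3) : 0 < D u X := by
  rcases (Cp_nonneg hu (H3_sub_Cp hX)).lt_or_eq with h | h
  · exact h
  · exfalso
    have h1 : 0 ≤ D u u := Cp_nonneg hu hu
    exact hu0 (eq_zero_of_orth (H3_pos hX) h.symm h1)

lemma one_le_D {X Y : V} (hX : X ∈ H3) (hY : Y ∈ H3) : 1 ≤ D X Y := by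
  have h0 : 0 ≤ D X Y := Cp_nonneg (H3_sub_Cp hX) (H3_sub_Cp hY)
  have h1 : D (Y - D X Y • X) (Y - D X Y • X) ≤ 0 := by
    refine nonpos_of_orth (H3_pos hX) ?_
    rw [D_sub_left, D_smul_left, hX.1, D_comm Y X]; ring
  rw [D_sub_left, D_sub_right, D_sub_right, D_smul_left, D_smul_left, D_smul_right, D_smul_right,
    hX.1, hY.1, D_comm Y X] at h1
  nlinarith

/-- Bound for the normals of planes through a bounded part of hyperbolic space. -/
lemma bound {q Y : V} {T : ℝ} (hq : D q q = -1) (hqY : D q Y = 0) (hY : 1 ≤ D Y Y)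
    (h0 : 0 < Y.1) (hT : Y.1 ≤ T) : ‖q‖ ≤ T + 1 := by
  rw [D_self] at hq hY
  have h1 : q.1 * Y.1 = inner ℝ q.2 Y.2 := by
    unfold D at hqY; linarith
  have h2 : |(inner ℝ q.2 Y.2 : ℝ)| ≤ ‖q.2‖ * ‖Y.2‖ := abs_real_inner_le_norm _ _
  have h3 : (q.1 * Y.1) ^ 2 ≤ (‖q.2‖ * ‖Y.2‖) ^ 2 := by
    rw [h1]
    exact sq_le_sq' (by linarith [(abs_le.1 h2).1]) (abs_le.1 h2).2
  have h4 : ‖Y.2‖ ^ 2 ≤ Y.1 ^ 2 - 1 := by linarith
  have h5 : ‖q.2‖ ^ 2 = 1 + q.1 ^ 2 := by linarith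
  have h6 : q.1 ^ 2 ≤ T ^ 2 := by
    have h7 : (‖q.2‖ * ‖Y.2‖) ^ 2 ≤ (1 + q.1 ^ 2) * (Y.1 ^ 2 - 1) := by
      rw [mul_pow, h5]
      exact mul_le_mul_of_nonneg_left h4 (by positivity)
    nlinarith
  have hT0 : 0 < T := h0.trans_le hT
  have h8 : |q.1| ≤ T := abs_le_of_sq_le_sq h6 hT0.le
  have h9 : ‖q.2‖ ≤ T + 1 := by
    refine le_of_sq_le_sq ?_ (by linarith)
    nlinarith
  rw [Prod.norm_def]
  refine max_le ?_ h9
  rw [Real.norm_eq_abs]; linarith

/-- A point of the plane with normal `q`, together with a unit vector tangent to it. -/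
lemma exists_point {q : V} (hq : D q q = -1) :
    ∃ X ∈ H3, D q X = 0 ∧ ∃ e : V, D e e = -1 ∧ D e q = 0 ∧ D e X = 0 ∧
      ∀ s : ℝ, |s| ≤ 1 → ∀ c : ℝ, 0 ≤ (X + c • e + s • q).1 := by
  rw [D_self] at hq
  have hb : 1 ≤ ‖q.2‖ := by
    nlinarith [norm_nonneg q.2, sq_nonneg q.1]
  have hb0 : 0 < ‖q.2‖ := by linarith
  have hab : |q.1| ≤ ‖q.2‖ := by
    refine le_of_sq_le_sq ?_ hb0.le
    rw [sq_abs]; linarith
  obtain ⟨e', he', hn⟩ : ∃ e' : EuclideanSpace ℝ (Fin 3), inner ℝ q.2 e' = 0 ∧ ‖e'‖ = 1 := by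
    have hr : (Submodule.span ℝ {q.2})ᗮ ≠ ⊥ := by
      intro h
      have h1 := Submodule.finrank_add_finrank_orthogonal (Submodule.span ℝ {q.2})
      rw [h, finrank_bot, finrank_span_singleton (norm_pos_iff.1 hb0),
        finrank_euclideanSpace_fin] at h1
      omega
    obtain ⟨w, hw, hw0⟩ := Submodule.exists_mem_ne_zero_of_ne_bot hr
    rw [Submodule.mem_orthogonal_singleton_iff_inner_right] at hw
    refine ⟨‖w‖⁻¹ • w, ?_, ?_⟩
    · rw [real_inner_smul_right, hw, mul_zero]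
    · rw [norm_smul, norm_inv, norm_norm, inv_mul_cancel₀ (norm_ne_zero_iff.2 hw0)]
  refine ⟨(‖q.2‖, (q.1 / ‖q.2‖) • q.2), ⟨?_, hb0⟩, ?_, (0, e'), ?_, ?_, ?_, ?_⟩
  · rw [D_self]
    show ‖q.2‖ ^ 2 - ‖(q.1 / ‖q.2‖) • q.2‖ ^ 2 = 1
    rw [norm_smul, mul_pow, Real.norm_eq_abs, sq_abs, div_pow,
      div_mul_cancel₀ _ (pow_ne_zero 2 hb0.ne')]
    linarith
  · show q.1 * ‖q.2‖ - inner ℝ q.2 ((q.1 / ‖q.2‖) • q.2) = 0
    rw [real_inner_smul_right, real_inner_self_eq_norm_sq]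
    field_simp
    ring
  · rw [D_self]
    show (0 : ℝ) ^ 2 - ‖e'‖ ^ 2 = -1
    rw [hn]; norm_num
  · show (0 : ℝ) * q.1 - inner ℝ e' q.2 = 0
    rw [real_inner_comm, he']; ring
  · show (0 : ℝ) * ‖q.2‖ - inner ℝ e' ((q.1 / ‖q.2‖) • q.2) = 0
    rw [real_inner_smul_right, real_inner_comm, he']; ring
  · intro s hs c
    show 0 ≤ ‖q.2‖ + c * 0 + s * q.1
    have h1 : |s * q.1| ≤ 1 * ‖q.2‖ := by
      rw [abs_mul]; exact mul_le_mul hs hab (abs_nonneg _) zero_le_one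
    have h2 := (abs_le.1 h1).1
    linarith

/-- There are no three planes bounding pairwise disjoint half-spaces. -/
lemma no_three {Q : Set V} (hcl : IsClosed Q) (hneg : ∀ q ∈ Q, -q ∈ Q)
    (hunit : ∀ q ∈ Q, D q q = -1) (hnc : ∀ q ∈ Q, ∀ q' ∈ Q, 1 ≤ |D q q'|)
    (hfol : ∀ X ∈ H3, ∃ q ∈ Q, D q X = 0) {q₁ q₂ q₃ : V} (h₁ : q₁ ∈ Q) (h₂ : q₂ ∈ Q)
    (h₃ : q₃ ∈ Q) (h12 : 1 ≤ D q₁ q₂) (h13 : 1 ≤ D q₁ q₃) (h23 : 1 ≤ D q₂ q₃)
    (c12 : -(q₁ + q₂) ∈ Cp) (c13 : -(q₁ + q₃) ∈ Cp) (c23 : -(q₂ + q₃) ∈ Cp) : False := by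
  obtain ⟨X₁, hX₁, e₁, -⟩ := exists_point (hunit _ h₁)
  obtain ⟨X₂, hX₂, e₂, -⟩ := exists_point (hunit _ h₂)
  obtain ⟨X₃, hX₃, e₃, -⟩ := exists_point (hunit _ h₃)
  -- strict negativity
  have key : ∀ {p q r X : V}, p ∈ Q → q ∈ Q → r ∈ Q → 1 ≤ D p q → 1 ≤ D p r → 1 ≤ D q r →
      -(p + q) ∈ Cp → X ∈ H3 → D q X = 0 → D p X < 0 := by
    intro p q r X hp hq hr hpq hpr hqr hc hX hqX
    have h0 : -(p + q) ≠ 0 := by
      intro h
      have h1 : p = -q := by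
        rw [neg_eq_zero] at h; exact eq_neg_of_add_eq_zero_left h
      rw [h1, D_neg_left] at hpr
      linarith
    have h1 := Cp_pos hc h0 hX
    rw [D_neg_left, D_add_left, hqX] at h1
    linarith
  have s21 : D q₂ X₁ < 0 :=
    key h₂ h₁ h₃ (by rwa [D_comm]) h23 h13 (by rwa [add_comm]) hX₁ e₁
  have s31 : D q₃ X₁ < 0 :=
    key h₃ h₁ h₂ (by rwa [D_comm]) (by rwa [D_comm]) h12 (by rwa [add_comm]) hX₁ e₁
  have s12 : D q₁ X₂ < 0 := key h₁ h₂ h₃ h12 h13 h23 c12 hX₂ e₂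
  have s32 : D q₃ X₂ < 0 :=
    key h₃ h₂ h₁ (by rwa [D_comm]) (by rwa [D_comm]) (by rwa [D_comm]) (by rwa [add_comm]) hX₂ e₂
  have s13 : D q₁ X₃ < 0 := key h₁ h₃ h₂ h13 h12 (by rwa [D_comm]) c13 hX₃ e₃
  have s23 : D q₂ X₃ < 0 := key h₂ h₃ h₁ h23 (by rwa [D_comm]) (by rwa [D_comm]) c23 hX₃ e₃
  -- the segment
  set Y : ℝ → V := fun s => (1 - s) • X₃ + s • X₁ with hY
  have hYc : Continuous Y := by rw [hY]; fun_prop
  have hDY : ∀ u s, D u (Y s) = (1 - s) * D u X₃ + s * D u X₁ := by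
    intro u s; simp only [hY]; rw [D_add_right, D_smul_right, D_smul_right]
  have hYY : ∀ s ∈ Icc (0 : ℝ) 1, 1 ≤ D (Y s) (Y s) := by
    intro s hs
    have h1 := one_le_D hX₁ hX₃
    rw [hDY, D_comm (Y s) X₃, D_comm (Y s) X₁, hDY, hDY, hX₃.1, hX₁.1, D_comm X₃ X₁]
    nlinarith [mul_nonneg (sub_nonneg.2 hs.2) hs.1, mul_nonneg (mul_nonneg (sub_nonneg.2 hs.2) hs.1)
      (sub_nonneg.2 h1)]
  have hY1 : ∀ s ∈ Icc (0 : ℝ) 1, 0 < (Y s).1 ∧ (Y s).1 ≤ X₁.1 + X₃.1 := by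
    intro s hs
    have ha : 0 < X₁.1 := hX₁.2
    have hb : 0 < X₃.1 := hX₃.2
    have h1 : (Y s).1 = (1 - s) * X₃.1 + s * X₁.1 := rfl
    rw [h1]
    constructor
    · rcases hs.1.lt_or_eq with h | h
      · have := mul_pos h ha
        have := mul_nonneg (sub_nonneg.2 hs.2) hb.le
        linarith
      · rw [← h]; linarith
    · have := mul_nonneg hs.1 hb.le
      have := mul_nonneg (sub_nonneg.2 hs.2) ha.le
      nlinarith
  -- the closed sets
  have hclosed : ∀ f : V → ℝ, Continuous f →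
      IsClosed {s : ℝ | s ∈ Icc (0 : ℝ) 1 ∧ ∃ q ∈ Q, D q (Y s) = 0 ∧ 0 ≤ D q (X₁ - X₃) ∧ 0 ≤ f q} := by
    intro f hf
    set R := X₁.1 + X₃.1 + 1 with hR
    have h1 : IsCompact {p : ℝ × V | p ∈ Icc (0 : ℝ) 1 ×ˢ Metric.closedBall (0 : V) R ∧
        (p.2 ∈ Q ∧ D p.2 (Y p.1) = 0 ∧ 0 ≤ D p.2 (X₁ - X₃) ∧ 0 ≤ f p.2)} := by
      refine (isCompact_Icc.prod (isCompact_closedBall _ _)).inter_right ?_
      refine (hcl.preimage continuous_snd).inter ?_
      refine (isClosed_eq (D_continuous.comp (continuous_snd.prodMk (hYc.comp continuous_fst)))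
        continuous_const).inter ?_
      refine (isClosed_le continuous_const ((D_continuous_left _).comp continuous_snd)).inter ?_
      exact isClosed_le continuous_const (hf.comp continuous_snd)
    have h2 := (h1.image continuous_fst).isClosed
    convert h2 using 1
    ext s
    constructor
    · rintro ⟨hs, q, hq, h3, h4, h5⟩
      refine ⟨(s, q), ⟨⟨hs, ?_⟩, hq, h3, h4, h5⟩, rfl⟩
      rw [mem_closedBall_zero_iff]
      exact bound (hunit q hq) h3 (hYY s hs) (hY1 s hs).1 (hY1 s hs).2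
    · rintro ⟨⟨s', q⟩, ⟨⟨hs, -⟩, hq, h3, h4, h5⟩, rfl⟩
      exact ⟨hs, q, hq, h3, h4, h5⟩
  have hA := hclosed (fun q => D q X₂) (D_continuous_left _)
  have hB := hclosed (fun q => -D q X₂) (D_continuous_left _).neg
  have hconn := isPreconnected_closed_iff.1 (isPreconnected_Icc (a := (0 : ℝ)) (b := 1)) _ _ hA hB
    ?_ ?_ ?_
  · obtain ⟨s, hs, ⟨-, q, hq, a1, a2, a3⟩, ⟨-, q', hq', b1, b2, b3⟩⟩ := hconn
    have hYs : 0 < D (Y s) (Y s) := by linarith [hYY s hs]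
    rcases eq_or_neg (hunit q hq) (hunit q' hq') (hnc q hq q' hq') hYs a1 b1 with h | h
    · rw [h] at b3
      have h3 : D q X₂ = 0 := by
        have a3' : 0 ≤ D q X₂ := a3
        have b3' : 0 ≤ -D q X₂ := b3
        linarith
      have h4 : D q₂ (Y s) < 0 := by
        rw [hDY]
        rcases hs.1.lt_or_eq with h5 | h5
        · have := mul_neg_of_pos_of_neg h5 s21
          have := mul_nonpos_of_nonneg_of_nonpos (sub_nonneg.2 hs.2) s23.le
          linarith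
        · rw [← h5]; linarith
      rcases eq_or_neg (hunit q hq) (hunit q₂ h₂) (hnc q hq q₂ h₂) (H3_pos hX₂) h3 e₂ with h5 | h5
      · rw [h5] at h4; linarith
      · rw [h5, D_neg_left] at h4; linarith
    · rw [h, D_neg_left] at b2
      have h3 : D q (X₁ - X₃) = 0 := by linarith
      rw [D_sub_right] at h3
      rw [hDY] at a1
      have h5' : D q X₃ = D q X₁ := by linarith
      rw [h5'] at a1
      have h4 : D q X₁ = 0 := by linarith
      have h5 : D q X₃ = 0 := by linarith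
      rcases eq_or_neg (hunit q hq) (hunit q₁ h₁) (hnc q hq q₁ h₁) (H3_pos hX₁) h4 e₁ with h6 | h6
      · rw [h6, h5] at s13; linarith
      · rw [h6, D_neg_left, h5] at s13; linarith
  · intro s hs
    obtain ⟨q, hq, h0⟩ : ∃ q ∈ Q, D q (Y s) = 0 := by
      have hp : 0 < D (Y s) (Y s) := by linarith [hYY s hs]
      have hr : 0 < Real.sqrt (D (Y s) (Y s)) := Real.sqrt_pos.2 hp
      obtain ⟨q, hq, h⟩ := hfol ((Real.sqrt (D (Y s) (Y s)))⁻¹ • Y s) ⟨by
        rw [D_smul_left, D_smul_right]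
        have h1 := Real.mul_self_sqrt hp.le
        field_simp
        nlinarith, by
        show 0 < (Real.sqrt (D (Y s) (Y s)))⁻¹ * (Y s).1
        exact mul_pos (inv_pos.2 hr) (hY1 s hs).1⟩
      rw [D_smul_right] at h
      exact ⟨q, hq, (mul_eq_zero.1 h).resolve_left (inv_pos.2 hr).ne'⟩
    obtain ⟨q, hq, h0, h1⟩ : ∃ q ∈ Q, D q (Y s) = 0 ∧ 0 ≤ D q (X₁ - X₃) := by
      rcases le_total 0 (D q (X₁ - X₃)) with h1 | h1
      · exact ⟨q, hq, h0, h1⟩
      · exact ⟨-q, hneg q hq, by rw [D_neg_left, h0, neg_zero], by rw [D_neg_left]; linarith⟩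
    rcases le_total 0 (D q X₂) with h2 | h2
    · exact Or.inl ⟨hs, q, hq, h0, h1, h2⟩
    · refine Or.inr ⟨hs, q, hq, h0, h1, ?_⟩
      show 0 ≤ -D q X₂
      linarith
  · refine ⟨0, ⟨le_rfl, zero_le_one⟩, ⟨le_rfl, zero_le_one⟩, -q₃, hneg _ h₃, ?_, ?_, ?_⟩
    · rw [hDY, D_neg_left, e₃]; ring
    · rw [D_neg_left, D_sub_right, e₃]; linarith
    · show 0 ≤ D (-q₃) X₂
      rw [D_neg_left]; linarith
  · refine ⟨1, ⟨zero_le_one, le_rfl⟩, ⟨zero_le_one, le_rfl⟩, q₁, h₁, ?_, ?_, ?_⟩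
    · rw [hDY, e₁]; ring
    · rw [D_sub_right, e₁]; linarith
    · show 0 ≤ -D q₁ X₂
      linarith

/-- The same without the orientation hypotheses. -/
lemma no_three' {Q : Set V} (hcl : IsClosed Q) (hneg : ∀ q ∈ Q, -q ∈ Q)
    (hunit : ∀ q ∈ Q, D q q = -1) (hnc : ∀ q ∈ Q, ∀ q' ∈ Q, 1 ≤ |D q q'|)
    (hfol : ∀ X ∈ H3, ∃ q ∈ Q, D q X = 0) {q₁ q₂ q₃ : V} (h₁ : q₁ ∈ Q) (h₂ : q₂ ∈ Q)
    (h₃ : q₃ ∈ Q) (h12 : 1 ≤ D q₁ q₂) (h13 : 1 ≤ D q₁ q₃) (h23 : 1 ≤ D q₂ q₃) : False := by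
  have cau : ∀ {p q : V}, p ∈ Q → q ∈ Q → 1 ≤ D p q → -(p + q) ∈ Cp ∨ p + q ∈ Cp := by
    intro p q hp hq h
    have h0 : 0 ≤ D (p + q) (p + q) := by
      rw [D_add_left, D_add_right, D_add_right, hunit p hp, hunit q hq, D_comm q p]; linarith
    exact (causal h0).symm
  have mix : ∀ {p q r : V}, p ∈ Q → q ∈ Q → r ∈ Q → 1 ≤ D q r → -(p + q) ∈ Cp → p + r ∈ Cp →
      False := by
    intro p q r hp hq hr hqr ha hb
    have h1 : 0 ≤ D (-(p + q)) (p + r) := Cp_nonneg ha hb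
    have h2 : 0 ≤ D (-(p + q)) (-(p + q)) := Cp_nonneg ha ha
    have h3 : 0 ≤ D (p + r) (p + r) := Cp_nonneg hb hb
    have h4 : 0 ≤ D (r - q) (r - q) := by
      have h5 : r - q = -(p + q) + (p + r) := by abel
      rw [h5, D_add_left, D_add_right (-(p + q)), D_add_right (p + r),
        D_comm (p + r) (-(p + q))]
      linarith
    rw [D_sub_left, D_sub_right, D_sub_right, hunit q hq, hunit r hr, D_comm r q] at h4
    linarith
  rcases cau h₁ h₂ h12 with a | a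
  · rcases cau h₁ h₃ h13 with b | b
    · rcases cau h₂ h₃ h23 with c | c
      · exact no_three hcl hneg hunit hnc hfol h₁ h₂ h₃ h12 h13 h23 a b c
      · exact mix h₂ h₁ h₃ h13 (by rwa [add_comm]) c
    · exact mix h₁ h₂ h₃ h23 a b
  · rcases cau h₁ h₃ h13 with b | b
    · exact mix h₁ h₃ h₂ (by rwa [D_comm]) b a
    · rcases cau h₂ h₃ h23 with c | c
      · exact mix h₂ h₃ h₁ (by rwa [D_comm]) c (by rwa [add_comm])
      · have aux : ∀ {p q : V}, 1 ≤ D p q → 1 ≤ D (-p) (-q) := by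
          intro p q h; rw [D_neg_left, D_neg_right, neg_neg]; exact h
        have aux2 : ∀ {p q : V}, p + q ∈ Cp → -(-p + -q) ∈ Cp := by
          intro p q h
          have h1 : -(-p + -q) = p + q := by abel
          rw [h1]; exact h
        exact no_three hcl hneg hunit hnc hfol (hneg _ h₁) (hneg _ h₂) (hneg _ h₃) (aux h12)
          (aux h13) (aux h23) (aux2 a) (aux2 b) (aux2 c)

lemma choose_sc {m k : ℝ} (hm : m ≠ 0) (hk : k ≤ -1) (d : ℝ) :
    ∃ s c : ℝ, |s| ≤ 1 ∧ c ^ 2 + s ^ 2 = 1 ∧ 0 < s * (m + c * d + s * k) := by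
  have main : ∀ m : ℝ, 0 < m → ∀ d : ℝ, ∃ s c : ℝ, |s| ≤ 1 ∧ c ^ 2 + s ^ 2 = 1 ∧
      0 < s * (m + c * d + s * k) := by
    intro m hm d
    set t := min 1 (m / (2 * (-k))) with ht
    have hk' : 0 < 2 * (-k) := by linarith
    have h1 : 0 < t := lt_min one_pos (div_pos hm hk')
    have h2 : t ≤ 1 := min_le_left _ _
    have h3 : t * (-k) ≤ m / 2 := by
      have h4 : t ≤ m / (2 * (-k)) := min_le_right _ _
      have h5 : t * (2 * (-k)) ≤ m := (le_div_iff₀ hk').1 h4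
      linarith
    have h6 : 0 ≤ 1 - t ^ 2 := by nlinarith
    have h7 := Real.sq_sqrt h6
    have h8 : 0 ≤ Real.sqrt (1 - t ^ 2) := Real.sqrt_nonneg _
    rcases le_total 0 d with hd | hd
    · refine ⟨t, Real.sqrt (1 - t ^ 2), ?_, by rw [h7]; ring, ?_⟩
      · rw [abs_of_pos h1]; exact h2
      · refine mul_pos h1 ?_
        have := mul_nonneg h8 hd
        linarith
    · refine ⟨t, -Real.sqrt (1 - t ^ 2), ?_, by rw [neg_sq, h7]; ring, ?_⟩
      · rw [abs_of_pos h1]; exact h2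
      · refine mul_pos h1 ?_
        have := mul_nonpos_of_nonneg_of_nonpos h8 hd
        linarith
  rcases hm.lt_or_gt with h | h
  · obtain ⟨s, c, h1, h2, h3⟩ := main (-m) (by linarith) (-d)
    refine ⟨-s, c, by rwa [abs_neg], by rw [neg_sq]; exact h2, ?_⟩
    have h4 : -s * (m + c * d + -s * k) = s * (-m + c * -d + s * k) := by ring
    rw [h4]; exact h3
  · exact main m h d

lemma null_mem_Cp {N : V} (h : D N N = 0) (h0 : 0 ≤ N.1) : N ∈ Cp := by
  rw [D_self] at h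
  show ‖N.2‖ ≤ N.1
  refine le_of_sq_le_sq ?_ h0
  linarith

end E1

open E1

/-- A closed family of planes which do not cross does not fill hyperbolic space, if the action is
minimal on the light cone. -/
theorem not_foliation {Λ : Type*} [Group Λ] {ρ : Λ →* Module.End ℝ V} {Q : Set V}
    (hA : Act ρ) (hF : Fam ρ Q)
    (hmin : ∀ E : Set V, IsClosed E → (∀ N ∈ E, D N N = 0 ∧ 0 ≤ N.1) →
      (∀ N ∈ E, ∀ c : ℝ, 0 ≤ c → c • N ∈ E) → (∀ γ, ∀ N ∈ E, ρ γ N ∈ E) →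
      (∃ N ∈ E, N ≠ 0) → ∀ N, D N N = 0 → 0 ≤ N.1 → N ∈ E) :
    ∃ X ∈ H3, ∀ q ∈ Q, D q X ≠ 0 := by
  by_contra hcon
  have hfol : ∀ X ∈ H3, ∃ q ∈ Q, D q X = 0 := by
    intro X hX
    by_contra h
    exact hcon ⟨X, hX, fun q hq h1 => h ⟨q, hq, h1⟩⟩
  obtain ⟨q₀, hq₀⟩ := hF.ne
  have tri : ∀ {p q r : V}, p ∈ Q → q ∈ Q → r ∈ Q → D p q ≤ -1 → D q r ≤ -1 → D p r ≤ -1 := by
    intro p q r hp hq hr h1 h2
    by_contra h3
    have h4 : 1 ≤ D p r := by
      rcases le_abs.1 (hF.nc p hp r hr) with h | h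
      · exact h
      · exfalso; linarith
    exact no_three' hF.closed hF.neg hF.unit hF.nc hfol hp (hF.neg q hq) hr
      (by rw [D_neg_right]; linarith) h4 (by rw [D_neg_left]; linarith)
  set Q1 : Set V := {q | q ∈ Q ∧ D q₀ q ≤ -1} with hQ1
  have hq₀1 : q₀ ∈ Q1 := ⟨hq₀, (hF.unit _ hq₀).le⟩
  have hchain : ∀ p ∈ Q1, ∀ q ∈ Q1, D p q ≤ -1 := fun p hp q hq =>
    tri hp.1 hq₀ hq.1 (by rw [D_comm]; exact hp.2) hq.2
  have hor : ∀ q ∈ Q, q ∈ Q1 ∨ -q ∈ Q1 := by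
    intro q hq
    rcases le_abs.1 (hF.nc q₀ hq₀ q hq) with h | h
    · exact Or.inr ⟨hF.neg q hq, by rw [D_neg_right]; linarith⟩
    · exact Or.inl ⟨hq, by linarith⟩
  set E : Set V := {N | (D N N = 0 ∧ 0 ≤ N.1) ∧
    ((∀ q ∈ Q1, 0 ≤ D q N) ∨ (∀ q ∈ Q1, D q N ≤ 0))} with hE
  have hself : Continuous fun N : V => D N N :=
    D_continuous.comp (continuous_id.prodMk continuous_id)
  have hEc : IsClosed E := by
    refine ((isClosed_eq hself continuous_const).inter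
      (isClosed_le continuous_const continuous_fst)).inter ?_
    refine IsClosed.union ?_ ?_
    · have h1 : {N : V | ∀ q ∈ Q1, 0 ≤ D q N} = ⋂ q ∈ Q1, {N | 0 ≤ D q N} := by
        ext N; simp
      show IsClosed {N : V | ∀ q ∈ Q1, 0 ≤ D q N}
      rw [h1]
      exact isClosed_biInter fun q _ => isClosed_le continuous_const (D_continuous_right q)
    · have h1 : {N : V | ∀ q ∈ Q1, D q N ≤ 0} = ⋂ q ∈ Q1, {N | D q N ≤ 0} := by
        ext N; simp
      show IsClosed {N : V | ∀ q ∈ Q1, D q N ≤ 0}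
      rw [h1]
      exact isClosed_biInter fun q _ => isClosed_le (D_continuous_right q) continuous_const
  have hcone : ∀ N ∈ E, ∀ c : ℝ, 0 ≤ c → c • N ∈ E := by
    rintro N ⟨⟨h1, h2⟩, h3⟩ c hc
    refine ⟨⟨by rw [D_smul_left, D_smul_right, h1]; ring, ?_⟩, ?_⟩
    · show 0 ≤ c * N.1
      exact mul_nonneg hc h2
    · rcases h3 with h3 | h3
      · exact Or.inl fun q hq => by rw [D_smul_right]; exact mul_nonneg hc (h3 q hq)
      · exact Or.inr fun q hq => by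
          rw [D_smul_right]; exact mul_nonpos_of_nonneg_of_nonpos hc (h3 q hq)
  have hX0 : ∃ X : V, X ∈ H3 := ⟨(1, 0), by constructor <;> simp [D]⟩
  have hinv : ∀ γ, ∀ N ∈ E, ρ γ N ∈ E := by
    rintro γ N ⟨⟨h1, h2⟩, h3⟩
    have hback : ρ γ⁻¹ (ρ γ N) = N := by
      rw [← Module.End.mul_apply, ← map_mul, inv_mul_cancel, map_one, Module.End.one_apply]
    have hD : ∀ q, D q (ρ γ N) = D (ρ γ⁻¹ q) N := by
      intro q
      rw [← hA.form γ⁻¹ q (ρ γ N), hback]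
    have hpos : 0 ≤ (ρ γ N).1 := by
      obtain ⟨X, hX⟩ := hX0
      have h4 : 0 ≤ D (ρ γ N) (ρ γ N) := by rw [hA.form, h1]
      rcases causal h4 with h | h
      · exact (norm_nonneg _).trans h
      · by_cases hz : -(ρ γ N) = 0
        · rw [neg_eq_zero.1 hz]; exact le_rfl
        · have h5 := Cp_pos h hz (hA.pos γ X hX)
          rw [D_neg_left, hA.form] at h5
          have h6 := Cp_nonneg (null_mem_Cp h1 h2) (H3_sub_Cp hX)
          linarith
    have hmap : (∀ q ∈ Q1, ρ γ⁻¹ q ∈ Q1) ∨ (∀ q ∈ Q1, -(ρ γ⁻¹ q) ∈ Q1) := by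
      rcases hor _ (hF.inv γ⁻¹ q₀ hq₀) with h | h
      · left
        intro q hq
        exact ⟨hF.inv _ _ hq.1, tri hq₀ h.1 (hF.inv _ _ hq.1) h.2 (by rw [hA.form]; exact hq.2)⟩
      · right
        intro q hq
        refine ⟨hF.neg _ (hF.inv _ _ hq.1), tri hq₀ h.1 (hF.neg _ (hF.inv _ _ hq.1)) h.2 ?_⟩
        rw [D_neg_left, D_neg_right, neg_neg, hA.form]; exact hq.2
    refine ⟨⟨by rw [hA.form, h1], hpos⟩, ?_⟩
    rcases hmap with hm | hm
    · rcases h3 with h3 | h3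
      · exact Or.inl fun q hq => by rw [hD]; exact h3 _ (hm q hq)
      · exact Or.inr fun q hq => by rw [hD]; exact h3 _ (hm q hq)
    · rcases h3 with h3 | h3
      · refine Or.inr fun q hq => ?_
        have h4 := h3 _ (hm q hq)
        rw [D_neg_left] at h4; rw [hD]; linarith
      · refine Or.inl fun q hq => ?_
        have h4 := h3 _ (hm q hq)
        rw [D_neg_left] at h4; rw [hD]; linarith
  have hne : ∃ N ∈ E, N ≠ 0 := by
    let S : Q1 → Set V := fun q => {N | (N.1 = 1 ∧ ‖N.2‖ = 1) ∧ 0 ≤ D q.1 N}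
    have hSc : ∀ q, IsClosed (S q) := by
      intro q
      refine ((isClosed_eq continuous_fst continuous_const).inter
        (isClosed_eq (continuous_norm.comp continuous_snd) continuous_const)).inter ?_
      exact isClosed_le continuous_const (D_continuous_right q.1)
    have hSk : ∀ q, IsCompact (S q) := by
      intro q
      refine (isCompact_closedBall (0 : V) 1).of_isClosed_subset (hSc q) ?_
      rintro N ⟨⟨h1, h2⟩, -⟩
      rw [mem_closedBall_zero_iff, Prod.norm_def, h1, h2]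
      simp
    have hCp : ∀ q, ∀ N ∈ S q, N ∈ Cp := by
      rintro q N ⟨⟨h1, h2⟩, -⟩
      show ‖N.2‖ ≤ N.1
      rw [h1, h2]
    have : Nonempty Q1 := ⟨⟨q₀, hq₀1⟩⟩
    have hSn : ∀ q, (S q).Nonempty := by
      rintro ⟨q, hq⟩
      have hqq := hF.unit q hq.1
      rw [D_self] at hqq
      have hb : 0 < ‖q.2‖ := by
        have h0 := norm_nonneg q.2
        rcases h0.lt_or_eq with h | h
        · exact h
        · exfalso; rw [← h] at hqq; nlinarith [sq_nonneg q.1]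
      refine ⟨(1, -(‖q.2‖⁻¹ • q.2)), ⟨rfl, ?_⟩, ?_⟩
      · show ‖-(‖q.2‖⁻¹ • q.2)‖ = 1
        rw [norm_neg, norm_smul, norm_inv, norm_norm, inv_mul_cancel₀ hb.ne']
      · show 0 ≤ q.1 * 1 - inner ℝ q.2 (-(‖q.2‖⁻¹ • q.2))
        rw [inner_neg_right, real_inner_smul_right, real_inner_self_eq_norm_sq]
        have h1 : ‖q.2‖⁻¹ * ‖q.2‖ ^ 2 = ‖q.2‖ := by
          field_simp
        rw [h1]
        have h2 : |q.1| ≤ ‖q.2‖ := by
          refine le_of_sq_le_sq ?_ hb.le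
          rw [sq_abs]; linarith
        have h3 := (abs_le.1 h2).1
        linarith
    have hdir : Directed (fun x1 x2 => x1 ⊇ x2) S := by
      intro p q
      have h0 : 0 ≤ D (q.1 - p.1) (q.1 - p.1) := by
        rw [D_sub_left, D_sub_right, D_sub_right, hF.unit _ q.2.1, hF.unit _ p.2.1,
          D_comm p.1 q.1]
        have := hchain _ q.2 _ p.2
        linarith
      rcases causal h0 with h | h
      · refine ⟨p, Subset.rfl, ?_⟩
        intro N hN
        have h1 := Cp_nonneg h (hCp p N hN)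
        rw [D_sub_left] at h1
        exact ⟨hN.1, by have := hN.2; linarith⟩
      · refine ⟨q, ?_, Subset.rfl⟩
        intro N hN
        have h1 := Cp_nonneg h (hCp q N hN)
        rw [D_neg_left, D_sub_left] at h1
        exact ⟨hN.1, by have := hN.2; linarith⟩
    obtain ⟨N, hN⟩ := IsCompact.nonempty_iInter_of_directed_nonempty_isCompact_isClosed S hdir hSn
      hSk hSc
    rw [mem_iInter] at hN
    have h1 := (hN ⟨q₀, hq₀1⟩).1
    refine ⟨N, ⟨⟨?_, ?_⟩, Or.inl fun q hq => (hN ⟨q, hq⟩).2⟩, ?_⟩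
    · rw [D_self, h1.1, h1.2]; norm_num
    · rw [h1.1]; exact zero_le_one
    · intro h
      rw [h] at h1
      exact zero_ne_one h1.1
  have hall := hmin E hEc (fun N hN => hN.1) hcone hinv hne
  -- two planes of the chain are separated by a point at infinity
  obtain ⟨X₀, hX₀, hX₀q, e, hee, heq, heX, hfut⟩ := exists_point (hF.unit _ hq₀)
  have hX₀1 : 0 < X₀.1 := hX₀.2
  obtain ⟨q', hq', hX'⟩ : ∃ q' ∈ Q1, D q' (Real.sqrt 2 • X₀ + q₀) = 0 := by
    obtain ⟨q', hq', h⟩ := hfol (Real.sqrt 2 • X₀ + q₀) ⟨by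
      rw [D_add_left, D_add_right, D_add_right, D_smul_left, D_smul_left, D_smul_right,
        D_smul_right, hX₀.1, D_comm X₀ q₀, hX₀q, hF.unit _ hq₀]
      have := Real.mul_self_sqrt (show (0 : ℝ) ≤ 2 by norm_num)
      nlinarith, by
      show 0 < Real.sqrt 2 * X₀.1 + q₀.1
      have h1 := hfut 1 (by simp) 0
      have h2 : (X₀ + (0 : ℝ) • e + (1 : ℝ) • q₀).1 = X₀.1 + q₀.1 := by
        show X₀.1 + 0 * e.1 + 1 * q₀.1 = X₀.1 + q₀.1
        ring
      rw [h2] at h1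
      have h3 : 1 < Real.sqrt 2 := by
        rw [Real.lt_sqrt zero_le_one]; norm_num
      nlinarith⟩
    rcases hor q' hq' with h1 | h1
    · exact ⟨q', h1, h⟩
    · exact ⟨-q', h1, by rw [D_neg_left, h, neg_zero]⟩
  have hm : D q' X₀ ≠ 0 := by
    intro h
    have h1 : D q₀ (Real.sqrt 2 • X₀ + q₀) = -1 := by
      rw [D_add_right, D_smul_right, hX₀q, hF.unit _ hq₀]; ring
    rcases eq_or_neg (hF.unit _ hq₀) (hF.unit _ hq'.1) (hF.nc _ hq₀ _ hq'.1) (H3_pos hX₀) hX₀q h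
      with h2 | h2
    · rw [h2, h1] at hX'; linarith
    · rw [h2, D_neg_left, h1] at hX'; linarith
  obtain ⟨s, c, hs, hsc, hpos⟩ := choose_sc hm (hchain _ hq' _ hq₀1) (D q' e)
  have hN := hall (X₀ + c • e + s • q₀) (by
    simp only [D_add_left, D_add_right, D_smul_left, D_smul_right]
    rw [hX₀.1, hee, hF.unit _ hq₀, D_comm X₀ e, heX, D_comm X₀ q₀, hX₀q, D_comm q₀ e, heq]
    linarith) (hfut s hs c)
  have d0 : D q₀ (X₀ + c • e + s • q₀) = -s := by
    rw [D_add_right, D_add_right, D_smul_right, D_smul_right, hX₀q, D_comm q₀ e, heq,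
      hF.unit _ hq₀]
    ring
  have d1 : D q' (X₀ + c • e + s • q₀) = D q' X₀ + c * D q' e + s * D q' q₀ := by
    rw [D_add_right, D_add_right, D_smul_right, D_smul_right]
  rw [← d1] at hpos
  rcases hN.2 with h | h
  · have h1 := h _ hq₀1
    have h2 := h _ hq'
    rw [d0] at h1
    have := mul_nonpos_of_nonpos_of_nonneg (show s ≤ 0 by linarith) h2
    linarith
  · have h1 := h _ hq₀1
    have h2 := h _ hq'
    rw [d0] at h1
    have := mul_nonpos_of_nonneg_of_nonpos (show 0 ≤ s by linarith) h2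
    linarith

end Pool.Agent.H90.WC
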